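import Pool.Agent.helper825_SB.Cnt

set_option autoImplicit false

/-! # Sheared boxes are equidistributed -/

namespace Pool.Agent.helper825_SB

open Finset Filter
open Pool.Agent.H256R2.SC.LG (count_Ioc)

open scoped Classical

/-- the points `(x, y)` with `U - K < x ≤ U` and `s x < y ≤ s x + K` -/
noncomputable def shear (U : ℤ) (K : ℕ) (s : ℤ → ℤ) : Finset (Fin 2 → ℤ) :=
  ((Ioc (U - K) U).biUnion fun x => (Ioc (s x) (s x + K)).image fun y => ![x, y])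

theorem mem_shear {U : ℤ} {K : ℕ} {s : ℤ → ℤ} {v : Fin 2 → ℤ} :
    v ∈ shear U K s ↔ (U - K < v 0 ∧ v 0 ≤ U) ∧ (s (v 0) < v 1 ∧ v 1 ≤ s (v 0) + K) := by
  unfold shear
  rw [mem_biUnion]
  constructor
  · rintro ⟨x, hx, hv⟩
    rw [mem_image] at hv
    obtain ⟨y, hy, rfl⟩ := hv
    rw [mem_Ioc] at hx hy
    simpa using ⟨hx, hy⟩
  · rintro ⟨h1, h2⟩
    refine ⟨v 0, mem_Ioc.2 h1, mem_image.2 ⟨v 1, mem_Ioc.2 h2, ?_⟩⟩
    funext i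
    fin_cases i <;> rfl

theorem card_shear_filter (U : ℤ) (K : ℕ) (s : ℤ → ℤ) (m : ℕ) (c : Fin 2 → ℤ) :
    ((shear U K s).filter (fun x => ∀ j, (m : ℤ) ∣ x j - c j)).card =
      ∑ x ∈ (Ioc (U - K) U).filter (fun x => (m : ℤ) ∣ x - c 0),
        ((Ioc (s x) (s x + K)).filter (fun y => (m : ℤ) ∣ y - c 1)).card := by
  have h1 : (shear U K s).filter (fun x => ∀ j, (m : ℤ) ∣ x j - c j) =
      ((Ioc (U - K) U).filter (fun x => (m : ℤ) ∣ x - c 0)).biUnion fun x =>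
        ((Ioc (s x) (s x + K)).filter (fun y => (m : ℤ) ∣ y - c 1)).image fun y => ![x, y] := by
    ext v
    rw [mem_filter, mem_shear, mem_biUnion]
    constructor
    · rintro ⟨⟨h1, h2⟩, h3⟩
      refine ⟨v 0, mem_filter.2 ⟨mem_Ioc.2 h1, h3 0⟩, mem_image.2 ⟨v 1,
        mem_filter.2 ⟨mem_Ioc.2 h2, h3 1⟩, ?_⟩⟩
      funext i
      fin_cases i <;> rfl
    · rintro ⟨x, hx, hv⟩
      rw [mem_image] at hv
      obtain ⟨y, hy, rfl⟩ := hv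
      rw [mem_filter, mem_Ioc] at hx hy
      refine ⟨by simpa using ⟨hx.1, hy.1⟩, fun j => ?_⟩
      fin_cases j
      · simpa using hx.2
      · simpa using hy.2
  rw [h1, card_biUnion]
  · refine sum_congr rfl fun x _ => ?_
    rw [card_image_of_injective]
    intro y y' h
    exact congrFun h 1
  · intro x _ x' _ hne
    rw [Function.onFun, disjoint_left]
    intro v hv hv'
    rw [mem_image] at hv hv'
    obtain ⟨y, _, rfl⟩ := hv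
    obtain ⟨y', _, h⟩ := hv'
    exact hne (congrFun h 0).symm

theorem equi_shear (Z : ℕ) (hZ : 3 ≤ Z) (U : ℤ) (s : ℤ → ℤ) :
    Equi 2 Z (shear U (Z ^ 3) s) ((Z : ℝ) ^ 6) := by
  have hZR : (3 : ℝ) ≤ Z := by exact_mod_cast hZ
  have hZ0 : (0 : ℝ) < Z := by linarith
  refine ⟨by positivity, fun m hm hmZ c => ?_⟩
  have hm0 : (0 : ℝ) < m := by exact_mod_cast hm
  rw [card_shear_filter, Nat.cast_sum]
  set S := (Ioc (U - (Z ^ 3 : ℕ)) U).filter (fun x => (m : ℤ) ∣ x - c 0) with hS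
  obtain ⟨Y, hY⟩ : ∃ Y : ℝ, Y = (Z : ℝ) ^ 3 / m := ⟨_, rfl⟩
  have hY0 : 0 < Y := by rw [hY]; positivity
  have hS1 : |(S.card : ℝ) - Y| ≤ 1 := by
    have h2 := count_Ioc (U - (Z ^ 3 : ℕ)) U (by have : (0 : ℤ) ≤ ((Z ^ 3 : ℕ) : ℤ) := Int.natCast_nonneg _; omega) m hm (c 0)
    have e : ((U : ℝ) - ((U - (Z ^ 3 : ℕ) : ℤ) : ℝ)) / (m : ℝ) = Y := by
      rw [hY]; push_cast; ring
    rw [e] at h2
    exact h2
  have hcol : ∀ x : ℤ, |(((Ioc (s x) (s x + (Z ^ 3 : ℕ))).filter (fun y => (m : ℤ) ∣ y - c 1)).card : ℝ)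
      - Y| ≤ 1 := by
    intro x
    have h2 := count_Ioc (s x) (s x + (Z ^ 3 : ℕ)) (by have : (0 : ℤ) ≤ ((Z ^ 3 : ℕ) : ℤ) := Int.natCast_nonneg _; omega) m hm (c 1)
    have e : (((s x + (Z ^ 3 : ℕ) : ℤ) : ℝ) - (s x : ℝ)) / (m : ℝ) = Y := by
      rw [hY]; push_cast; ring
    rw [e] at h2
    exact h2
  have hsum : |∑ x ∈ S, (((Ioc (s x) (s x + (Z ^ 3 : ℕ))).filter (fun y => (m : ℤ) ∣ y - c 1)).card : ℝ)
      - S.card * Y| ≤ S.card := by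
    have e : ∑ x ∈ S, (((Ioc (s x) (s x + (Z ^ 3 : ℕ))).filter (fun y => (m : ℤ) ∣ y - c 1)).card : ℝ)
        - S.card * Y = ∑ x ∈ S, ((((Ioc (s x) (s x + (Z ^ 3 : ℕ))).filter
          (fun y => (m : ℤ) ∣ y - c 1)).card : ℝ) - Y) := by
      rw [sum_sub_distrib, sum_const, nsmul_eq_mul]
    rw [e]
    refine (abs_sum_le_sum_abs _ _).trans ?_
    refine (sum_le_sum fun x _ => hcol x).trans ?_
    rw [sum_const, nsmul_eq_mul, mul_one]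
  have hN : (Z : ℝ) ^ 6 / (m : ℝ) ^ 2 = Y ^ 2 := by
    rw [hY, div_pow]; ring
  rw [hN]
  have hYZ : (Z : ℝ) ^ 2 ≤ Y := by
    rw [hY, le_div_iff₀ hm0]
    calc (Z : ℝ) ^ 2 * m ≤ (Z : ℝ) ^ 2 * Z := by gcongr
      _ = (Z : ℝ) ^ 3 := by ring
  have hY1 : 9 ≤ Y := by nlinarith
  have hrp : 3 * Y ≤ Y ^ 2 * (Z : ℝ) ^ (-(1 / 2) : ℝ) := by
    have h1 : (Z : ℝ) ^ (-(1 : ℝ)) ≤ (Z : ℝ) ^ (-(1 / 2) : ℝ) :=
      Real.rpow_le_rpow_of_exponent_le (by linarith) (by norm_num)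
    rw [Real.rpow_neg_one] at h1
    have h2 : 3 ≤ Y * (Z : ℝ)⁻¹ := by
      rw [← div_eq_mul_inv, le_div_iff₀ hZ0]
      nlinarith
    calc 3 * Y ≤ (Y * (Z : ℝ)⁻¹) * Y := by gcongr
      _ = Y ^ 2 * (Z : ℝ)⁻¹ := by ring
      _ ≤ Y ^ 2 * (Z : ℝ) ^ (-(1 / 2) : ℝ) := by gcongr
  have hSc := abs_le.1 hS1
  have hsm := abs_le.1 hsum
  have e1 : ((S.card : ℝ) - Y) * Y ≤ 1 * Y := mul_le_mul_of_nonneg_right hSc.2 hY0.le
  have e2 : (-1 : ℝ) * Y ≤ ((S.card : ℝ) - Y) * Y := mul_le_mul_of_nonneg_right hSc.1 hY0.le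
  have e3 : ((S.card : ℝ) - Y) * Y = S.card * Y - Y ^ 2 := by ring
  rw [e3] at e1 e2
  rw [abs_le]
  constructor
  · linarith [hsm.1, hSc.2]
  · linarith [hsm.2, hSc.2]

end Pool.Agent.helper825_SB
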