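import Mathlib
import Pool.Agent.helper391_DG.Ana

set_option autoImplicit false

/-! # Elementary estimates -/

namespace Pool.Agent.helper825_SB

open Finset Filter
open Pool.Agent.helper391_DG (F F_scale)

theorem pow_diff {u v : ℝ} (hv : 0 ≤ v) (huv : v ≤ u) (n : ℕ) :
    u ^ n - v ^ n ≤ n * (u - v) * u ^ (n - 1) := by
  have hu : 0 ≤ u := hv.trans huv
  induction n with
  | zero => simp
  | succ n ih =>
    have h1 : v ^ n ≤ u ^ n := pow_le_pow_left₀ hv huv n
    have h2 : u * (n * (u - v) * u ^ (n - 1)) = n * (u - v) * u ^ n := by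
      rcases Nat.eq_zero_or_pos n with h | h
      · simp [h]
      · obtain ⟨k, rfl⟩ : ∃ k, n = k + 1 := ⟨n - 1, by omega⟩
        rw [Nat.add_sub_cancel, pow_succ]; ring
    have h3 : u ^ (n + 1) - v ^ (n + 1) = u * (u ^ n - v ^ n) + (u - v) * v ^ n := by ring
    rw [h3, Nat.add_sub_cancel]
    push_cast
    have h4 : u * (u ^ n - v ^ n) ≤ u * (n * (u - v) * u ^ (n - 1)) := by gcongr
    have h5 : (u - v) * v ^ n ≤ (u - v) * u ^ n := by
      apply mul_le_mul_of_nonneg_left h1; linarith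
    rw [h2] at h4
    linarith

/-- the remainder after the first power -/
theorem rem_bound (a : ℕ) (ha : 1 ≤ a) (M U x T η : ℝ) (hM : 1 ≤ M) (hη : 0 ≤ η) (hU : 0 ≤ U)
    (hU1 : U ^ a ≤ M) (hU2 : M < (U + 1) ^ a) (hx0 : 0 ≤ x) (hxU : x ≤ U) (hxT : U + 1 - T ≤ x)
    (hT : T ≤ M ^ η) :
    M + 1 - x ^ a ≤ (1 + a * 2 ^ (a - 1)) * M ^ (η + (1 - 1 / (a : ℝ))) := by
  have haR : (1 : ℝ) ≤ a := by exact_mod_cast ha
  have ha0 : (0 : ℝ) < a := by linarith
  have hM0 : 0 < M := by linarith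
  have hα : 0 ≤ 1 - 1 / (a : ℝ) := by
    rw [sub_nonneg, div_le_one ha0]; exact haR
  have hUM : U ≤ M ^ (1 / (a : ℝ)) := by
    have h1 : (U ^ a) ^ (1 / (a : ℝ)) ≤ M ^ (1 / (a : ℝ)) :=
      Real.rpow_le_rpow (by positivity) hU1 (by positivity)
    rwa [← Real.rpow_natCast, ← Real.rpow_mul hU, mul_one_div_cancel ha0.ne', Real.rpow_one] at h1
  have h1M : 1 ≤ M ^ (1 / (a : ℝ)) := Real.one_le_rpow hM (by positivity)
  have hU3 : (U + 1) ^ (a - 1) ≤ 2 ^ (a - 1) * M ^ (1 - 1 / (a : ℝ)) := by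
    calc (U + 1) ^ (a - 1) ≤ (2 * M ^ (1 / (a : ℝ))) ^ (a - 1) := by
          gcongr; linarith
      _ = 2 ^ (a - 1) * M ^ (1 - 1 / (a : ℝ)) := by
          rw [mul_pow, ← Real.rpow_natCast (M ^ (1 / (a : ℝ))), ← Real.rpow_mul hM0.le,
            Nat.cast_sub ha]
          congr 2
          push_cast
          field_simp
  have h2 := pow_diff hx0 (show x ≤ U + 1 by linarith) a
  have h3 : (a : ℝ) * (U + 1 - x) * (U + 1) ^ (a - 1) ≤
      a * M ^ η * (2 ^ (a - 1) * M ^ (1 - 1 / (a : ℝ))) := by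
    have h4 : U + 1 - x ≤ M ^ η := by linarith
    have h5 : 0 ≤ U + 1 - x := by linarith
    gcongr
  have h6 : (a : ℝ) * M ^ η * (2 ^ (a - 1) * M ^ (1 - 1 / (a : ℝ))) =
      a * 2 ^ (a - 1) * M ^ (η + (1 - 1 / (a : ℝ))) := by
    rw [Real.rpow_add hM0]; ring
  have h7 : 1 ≤ M ^ (η + (1 - 1 / (a : ℝ))) := Real.one_le_rpow hM (by positivity)
  nlinarith

/-- the step of the second power -/
theorem step_bound (b : ℕ) (hb : 1 ≤ b) (M R T η α C : ℝ) (hM : 1 ≤ M) (hη : 0 ≤ η) (hα : 0 ≤ α)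
    (hC : 1 ≤ C) (hR0 : 0 ≤ R) (hR : R ≤ C * M ^ (η + α)) (hT0 : 0 ≤ T) (hT : T ≤ M ^ η) :
    (R ^ (1 / (b : ℝ)) + T) ^ b - R ≤
      b * (2 * C) ^ (b - 1) * M ^ (α * (1 - 1 / (b : ℝ)) + η * b) := by
  have hbR : (1 : ℝ) ≤ b := by exact_mod_cast hb
  have hb0 : (0 : ℝ) < b := by linarith
  have hM0 : 0 < M := by linarith
  set r := R ^ (1 / (b : ℝ)) with hr
  have hr0 : 0 ≤ r := by positivity
  have hrb : r ^ b = R := by
    rw [hr, ← Real.rpow_natCast, ← Real.rpow_mul hR0, one_div_mul_cancel hb0.ne', Real.rpow_one]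
  have h1 : r ≤ C * M ^ (η + α / b) := by
    calc r ≤ (C * M ^ (η + α)) ^ (1 / (b : ℝ)) := Real.rpow_le_rpow hR0 hR (by positivity)
      _ = C ^ (1 / (b : ℝ)) * M ^ ((η + α) * (1 / (b : ℝ))) := by
          rw [Real.mul_rpow (by positivity) (by positivity), ← Real.rpow_mul hM0.le]
      _ ≤ C ^ (1 : ℝ) * M ^ (η + α / b) := by
          apply mul_le_mul
          · apply Real.rpow_le_rpow_of_exponent_le hC
            rw [div_le_one hb0]; exact hbR
          · apply Real.rpow_le_rpow_of_exponent_le hM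
            have h2 : η * (1 / (b : ℝ)) ≤ η * 1 := by
              apply mul_le_mul_of_nonneg_left _ hη
              rw [div_le_one hb0]; exact hbR
            have h3 : (η + α) * (1 / (b : ℝ)) = η * (1 / b) + α / b := by ring
            rw [h3]; linarith
          · positivity
          · positivity
      _ = C * M ^ (η + α / b) := by rw [Real.rpow_one]
  have h2 : T ≤ C * M ^ (η + α / b) := by
    calc T ≤ M ^ η := hT
      _ ≤ M ^ (η + α / b) := Real.rpow_le_rpow_of_exponent_le hM (by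
          have : 0 ≤ α / b := by positivity
          linarith)
      _ = 1 * M ^ (η + α / b) := (one_mul _).symm
      _ ≤ C * M ^ (η + α / b) := by gcongr
  have h3 : r + T ≤ 2 * C * M ^ (η + α / b) := by linarith
  have h4 := pow_diff hr0 (show r ≤ r + T by linarith) b
  rw [hrb] at h4
  refine h4.trans ?_
  have h5 : (r + T) ^ (b - 1) ≤ (2 * C) ^ (b - 1) * M ^ ((η + α / b) * ((b : ℝ) - 1)) := by
    calc (r + T) ^ (b - 1) ≤ (2 * C * M ^ (η + α / b)) ^ (b - 1) := by gcongr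
      _ = (2 * C) ^ (b - 1) * M ^ ((η + α / b) * ((b : ℝ) - 1)) := by
          rw [mul_pow, ← Real.rpow_natCast (M ^ (η + α / b)), ← Real.rpow_mul hM0.le,
            Nat.cast_sub hb]
          push_cast
          rfl
  calc (b : ℝ) * (r + T - r) * (r + T) ^ (b - 1) = b * T * (r + T) ^ (b - 1) := by ring
    _ ≤ b * M ^ η * ((2 * C) ^ (b - 1) * M ^ ((η + α / b) * ((b : ℝ) - 1))) := by gcongr
    _ = b * (2 * C) ^ (b - 1) * M ^ (η + (η + α / b) * ((b : ℝ) - 1)) := by
        rw [Real.rpow_add hM0 η]; ring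
    _ = b * (2 * C) ^ (b - 1) * M ^ (α * (1 - 1 / (b : ℝ)) + η * b) := by
        congr 2
        field_simp
        ring

/-- the record scale is at most the fourth power of the logarithm -/
theorem F_le : ∀ᶠ l : ℝ in atTop, F l ≤ l ^ 4 := by
  have hlog := Real.tendsto_log_atTop
  have hll : Tendsto (fun l : ℝ => Real.log (Real.log l)) atTop atTop := hlog.comp hlog
  have hlll : Tendsto (fun l : ℝ => Real.log (Real.log (Real.log l))) atTop atTop := hlog.comp hll
  filter_upwards [((hlog.eventually_ge_atTop 1).and (hll.eventually_ge_atTop 1)).and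
    ((hlll.eventually_ge_atTop 0).and (eventually_ge_atTop (1 : ℝ)))] with l hl
  obtain ⟨⟨h1, h2⟩, h3, h4⟩ := hl
  have e1 : Real.log l ≤ l := (Real.log_le_sub_one_of_pos (by linarith)).trans (by linarith)
  have e2 : Real.log (Real.log l) ≤ l :=
    ((Real.log_le_sub_one_of_pos (by linarith)).trans (by linarith)).trans e1
  have e3 : Real.log (Real.log (Real.log l)) ≤ l :=
    ((Real.log_le_sub_one_of_pos (by linarith)).trans (by linarith)).trans e2
  have h5 : F l = l * (Real.log l) ^ 2 * Real.log (Real.log (Real.log l)) /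
    (Real.log (Real.log l)) ^ 2 := rfl
  rw [h5, div_le_iff₀ (by positivity)]
  calc l * (Real.log l) ^ 2 * Real.log (Real.log (Real.log l)) ≤ l * l ^ 2 * l := by gcongr
    _ = l ^ 4 * 1 := by ring
    _ ≤ l ^ 4 * (Real.log (Real.log l)) ^ 2 := by
        gcongr
        nlinarith

end Pool.Agent.helper825_SB
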