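import Pool.Agent.helper825_SB.Pow
import Pool.Agent.helper825_SB.Box
import Pool.Agent.helper825_SB.Real

set_option autoImplicit false

/-! # Record gaps around the numbers `x ^ a + β y ^ b` in short intervals -/

namespace Pool.Agent.helper825_SB

open Finset Filter
open Pool.Agent.helper391_DG (F F_scale)
open Pool.Agent.H256R2.SC (ff)

theorem main (a b β : ℕ) (ha : 1 ≤ a) (hb : 1 ≤ b) (hβ : 1 ≤ β) (ε : ℝ) (hε : 0 < ε) :
    ∃ κ : ℝ, 0 < κ ∧ ∃ M₀ : ℕ, ∀ M : ℕ, M₀ ≤ M → ∃ x y : ℕ, 1 ≤ x ∧ 1 ≤ y ∧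
      M < x ^ a + β * y ^ b ∧
      ((x ^ a + β * y ^ b : ℕ) : ℝ) ≤
        M + (M : ℝ) ^ ((1 - 1 / (a : ℝ)) * (1 - 1 / (b : ℝ)) + ε) ∧
      ∀ m : ℕ, |(m : ℝ) - ((x ^ a + β * y ^ b : ℕ) : ℝ)| ≤ κ * F (Real.log M) →
        ¬ m.Prime ∧ ∃ p : ℕ, p.Prime ∧ (p : ℝ) ≤ (M : ℝ) ^ ε ∧ p ∣ m := by
  obtain ⟨c, hc, Z₀, hmain⟩ := pow_mainS (ι := Unit) (fun _ => a) (fun _ => b) (fun _ => (β : ℤ))
    (fun _ => ha) (fun _ => hb) (fun _ => by exact_mod_cast (show β ≠ 0 by omega))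
    (fun _ _ _ => rfl)
  have haR : (1 : ℝ) ≤ a := by exact_mod_cast ha
  have hbR : (1 : ℝ) ≤ b := by exact_mod_cast hb
  have hβR : (1 : ℝ) ≤ β := by exact_mod_cast hβ
  have ha0 : (0 : ℝ) < a := by linarith
  have hb0 : (0 : ℝ) < b := by linarith
  have hβ0 : (0 : ℝ) < β := by linarith
  obtain ⟨η, hηd⟩ : ∃ η : ℝ, η = min ε 1 / (2 * a * b) := ⟨_, rfl⟩
  have hmin : 0 < min ε 1 := lt_min hε one_pos
  have hη0 : 0 < η := by rw [hηd]; positivity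
  have hab : (1 : ℝ) ≤ a * b := by nlinarith
  have hηa : 2 * η ≤ 1 / a := by
    rw [hηd, le_div_iff₀ ha0]
    have h1 : 2 * (min ε 1 / (2 * a * b)) * a = min ε 1 / b := by field_simp
    rw [h1, div_le_one hb0]
    exact (min_le_right _ _).trans hbR
  have hηb : η * b ≤ ε / 2 := by
    have h1 : η * b = min ε 1 / a / 2 := by rw [hηd]; field_simp
    rw [h1]
    have h2 : min ε 1 / a ≤ ε := by
      rw [div_le_iff₀ ha0]
      calc min ε 1 ≤ ε * 1 := by rw [mul_one]; exact min_le_left _ _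
        _ ≤ ε * a := by gcongr
    linarith
  have hηε : η ≤ ε := by nlinarith
  have hη1 : η ≤ 1 := by
    have : 1 / (a : ℝ) ≤ 1 := by rw [div_le_one ha0]; exact haR
    linarith
  obtain ⟨C, hCd⟩ : ∃ C : ℝ, C = 1 + a * 2 ^ (a - 1) := ⟨_, rfl⟩
  have hC1 : 1 ≤ C := by
    rw [hCd]
    have : (0 : ℝ) ≤ a * 2 ^ (a - 1) := by positivity
    linarith
  obtain ⟨R, hR⟩ := F_scale (η / 8) (by positivity)
  obtain ⟨κ, hκd⟩ : ∃ κ : ℝ, κ = min 1 (c * (η / 8 / 8)) := ⟨_, rfl⟩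
  have hκ0 : 0 < κ := by rw [hκd]; exact lt_min one_pos (by positivity)
  have hκ1 : κ ≤ 1 := by rw [hκd]; exact min_le_left _ _
  have hκc : κ ≤ c * (η / 8 / 8) := by rw [hκd]; exact min_le_right _ _
  have hcast : Tendsto (fun M : ℕ => (M : ℝ)) atTop atTop := tendsto_natCast_atTop_atTop
  have hlogM : Tendsto (fun M : ℕ => Real.log (M : ℝ)) atTop atTop :=
    Real.tendsto_log_atTop.comp hcast
  have hW : Tendsto (fun M : ℕ => (M : ℝ) ^ (η / 4)) atTop atTop :=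
    (tendsto_rpow_atTop (by positivity)).comp hcast
  have hE : Tendsto (fun M : ℕ => (M : ℝ) ^ (ε / 2)) atTop atTop :=
    (tendsto_rpow_atTop (by positivity)).comp hcast
  have hlog4 : ∀ᶠ M : ℕ in atTop, (Real.log M) ^ 4 ≤ (M : ℝ) / 4 := by
    have h1 := (Real.isLittleO_pow_log_id_atTop (n := 4)).def (show (0 : ℝ) < 1 / 4 by norm_num)
    filter_upwards [hcast.eventually h1, eventually_ge_atTop 1] with M h2 h3
    have h3' : (1 : ℝ) ≤ M := by exact_mod_cast h3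
    rw [Real.norm_eq_abs, Real.norm_eq_abs, id, abs_of_nonneg (show (0 : ℝ) ≤ M by linarith)] at h2
    have := le_abs_self ((Real.log M) ^ 4)
    linarith
  obtain ⟨M₀, hM₀⟩ := eventually_atTop.1 ((((hW.eventually_ge_atTop (max (Z₀ + 1) 4)).and
    (hE.eventually_ge_atTop (1 + β * (b * (2 * C) ^ (b - 1))))).and
      ((hlogM.eventually_ge_atTop R).and (hlogM.eventually F_le))).and
        (hlog4.and (eventually_ge_atTop 2)))
  refine ⟨κ, hκ0, M₀, fun M hM => ?_⟩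
  obtain ⟨⟨⟨b1, b2⟩, b3, b4⟩, b5, b6⟩ := hM₀ M hM
  obtain ⟨b1a, b1b⟩ := max_le_iff.1 b1
  have hM2 : (2 : ℝ) ≤ M := by exact_mod_cast b6
  have hM1 : (1 : ℝ) ≤ M := by linarith
  have hM0 : (0 : ℝ) < M := by linarith
  obtain ⟨W, hWd⟩ : ∃ W : ℝ, W = (M : ℝ) ^ (η / 4) := ⟨_, rfl⟩
  rw [← hWd] at b1a b1b
  have hW0 : 0 < W := by linarith
  have hW4 : W ^ 4 = (M : ℝ) ^ η := by
    rw [hWd, ← Real.rpow_natCast, ← Real.rpow_mul hM0.le]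
    congr 1; push_cast; ring
  have hW8 : W ^ 8 ≤ (M : ℝ) ^ (1 / (a : ℝ)) := by
    rw [hWd, ← Real.rpow_natCast, ← Real.rpow_mul hM0.le]
    apply Real.rpow_le_rpow_of_exponent_le hM1
    push_cast
    linarith
  have hWM : 4 * W ≤ M := by
    have h1 : W ^ 2 ≤ (M : ℝ) ^ (1 : ℝ) := by
      rw [hWd, ← Real.rpow_natCast, ← Real.rpow_mul hM0.le]
      apply Real.rpow_le_rpow_of_exponent_le hM1
      push_cast
      linarith
    rw [Real.rpow_one] at h1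
    nlinarith
  obtain ⟨Z, hZd⟩ : ∃ Z : ℕ, Z = ⌊W⌋₊ := ⟨_, rfl⟩
  have hZW : (Z : ℝ) ≤ W := by rw [hZd]; exact Nat.floor_le hW0.le
  have hZW2 : W < Z + 1 := by rw [hZd]; exact Nat.lt_floor_add_one _
  have hZ3 : 3 ≤ Z := by
    rw [hZd]; apply Nat.le_floor; push_cast; linarith
  have hZ3R : (3 : ℝ) ≤ Z := by exact_mod_cast hZ3
  obtain ⟨K, hKd⟩ : ∃ K : ℕ, K = Z ^ 3 := ⟨_, rfl⟩
  have hKW : (K : ℝ) ≤ W ^ 3 := by rw [hKd]; push_cast; gcongr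
  have hT : (K : ℝ) + 1 ≤ (M : ℝ) ^ η := by
    rw [← hW4]
    have h1 : 1 ≤ W ^ 3 := one_le_pow₀ (by linarith)
    nlinarith
  obtain ⟨U, hUd⟩ : ∃ U : ℕ, U = ⌊(M : ℝ) ^ (1 / (a : ℝ))⌋₊ := ⟨_, rfl⟩
  have hU1 : (U : ℝ) ≤ (M : ℝ) ^ (1 / (a : ℝ)) := by
    rw [hUd]; exact Nat.floor_le (by positivity)
  have hU2 : (M : ℝ) ^ (1 / (a : ℝ)) < U + 1 := by rw [hUd]; exact Nat.lt_floor_add_one _
  have hroot : ((M : ℝ) ^ (1 / (a : ℝ))) ^ a = M := by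
    rw [← Real.rpow_natCast, ← Real.rpow_mul hM0.le, one_div_mul_cancel ha0.ne', Real.rpow_one]
  have hUa : (U : ℝ) ^ a ≤ M := by
    calc (U : ℝ) ^ a ≤ ((M : ℝ) ^ (1 / (a : ℝ))) ^ a := by gcongr
      _ = M := hroot
  have hUa2 : (M : ℝ) < ((U : ℝ) + 1) ^ a := by
    calc (M : ℝ) = ((M : ℝ) ^ (1 / (a : ℝ))) ^ a := hroot.symm
      _ < ((U : ℝ) + 1) ^ a := pow_lt_pow_left₀ hU2 (by positivity) (by omega)
  have hKU : K ≤ U := by
    have h1 : (K : ℝ) < U + 1 := by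
      have h2 : 1 ≤ W ^ 3 := one_le_pow₀ (by linarith)
      have h3 : W ^ 3 ≤ W ^ 8 := pow_le_pow_right₀ (by linarith) (by norm_num)
      linarith
    have h2 : K < U + 1 := by exact_mod_cast h1
    omega
  obtain ⟨s, hsd⟩ : ∃ s : ℤ → ℤ, s = fun x : ℤ =>
      ⌈(((M : ℝ) + 1 - (x : ℝ) ^ a) / β) ^ (1 / (b : ℝ))⌉ := ⟨_, rfl⟩
  obtain ⟨v, hv, hkill⟩ := hmain Z (by linarith) (shear U (Z ^ 3) s) _ (equi_shear Z hZ3 U s)
  rw [mem_shear, ← hKd] at hv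
  obtain ⟨⟨hv1, hv2⟩, hv3, hv4⟩ := hv
  obtain ⟨x, hx⟩ : ∃ x : ℕ, v 0 = x := Int.eq_ofNat_of_zero_le (by
    have : (K : ℤ) ≤ U := by exact_mod_cast hKU
    omega)
  have hx1 : 1 ≤ x := by
    have : (K : ℤ) ≤ U := by exact_mod_cast hKU
    omega
  rw [hx] at hv1 hv2 hv3 hv4
  have hxU : x ≤ U := by exact_mod_cast hv2
  have hxUR : (x : ℝ) ≤ U := by exact_mod_cast hxU
  have hxT : (U : ℝ) + 1 - (K + 1) ≤ x := by
    have h1 : ((U : ℤ) : ℝ) - ((K : ℤ) : ℝ) < ((x : ℤ) : ℝ) := by exact_mod_cast hv1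
    push_cast at h1
    linarith
  have hxM : (x : ℝ) ^ a ≤ M := by
    calc (x : ℝ) ^ a ≤ (U : ℝ) ^ a := by gcongr
      _ ≤ M := hUa
  obtain ⟨Q, hQd⟩ : ∃ Q : ℝ, Q = ((M : ℝ) + 1 - (x : ℝ) ^ a) / β := ⟨_, rfl⟩
  have hQ0 : 0 < Q := by rw [hQd]; apply div_pos _ hβ0; linarith
  have hQβ : β * Q = (M : ℝ) + 1 - (x : ℝ) ^ a := by rw [hQd]; field_simp
  have hrem := rem_bound a ha M U x (K + 1) η hM1 hη0.le (by positivity) hUa hUa2 (by positivity)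
    hxUR hxT hT
  rw [← hCd] at hrem
  have hQ1 : Q ≤ C * (M : ℝ) ^ (η + (1 - 1 / (a : ℝ))) := by
    refine le_trans ?_ hrem
    rw [← hQβ]
    nlinarith
  have hα : 0 ≤ 1 - 1 / (a : ℝ) := by
    rw [sub_nonneg, div_le_one ha0]; exact haR
  have hα' : 0 ≤ 1 - 1 / (b : ℝ) := by
    rw [sub_nonneg, div_le_one hb0]; exact hbR
  have hstep := step_bound b hb M Q (K + 1) η (1 - 1 / (a : ℝ)) C hM1 hη0.le hα hC1 hQ0.le hQ1
    (by positivity) hT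
  obtain ⟨r, hrd⟩ : ∃ r : ℝ, r = Q ^ (1 / (b : ℝ)) := ⟨_, rfl⟩
  rw [← hrd] at hstep
  have hr0 : 0 < r := by rw [hrd]; positivity
  have hrb : r ^ b = Q := by
    rw [hrd, ← Real.rpow_natCast, ← Real.rpow_mul hQ0.le, one_div_mul_cancel hb0.ne', Real.rpow_one]
  have hsx : s x = ⌈r⌉ := by
    rw [hsd, hrd, hQd]
    simp
  rw [hsx] at hv3 hv4
  have hce : 0 < ⌈r⌉ := Int.ceil_pos.2 hr0
  obtain ⟨y, hy⟩ : ∃ y : ℕ, v 1 = y := Int.eq_ofNat_of_zero_le (by omega)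
  rw [hy] at hv3 hv4
  have hy1 : 1 ≤ y := by omega
  have hry : r ≤ y := by
    have h1 : r ≤ (⌈r⌉ : ℝ) := Int.le_ceil r
    have h2 : ((⌈r⌉ : ℤ) : ℝ) < ((y : ℤ) : ℝ) := by exact_mod_cast hv3
    push_cast at h2
    linarith
  have hyr : (y : ℝ) ≤ r + (K + 1) := by
    have h1 : (⌈r⌉ : ℝ) < r + 1 := Int.ceil_lt_add_one r
    have h2 : ((y : ℤ) : ℝ) ≤ ((⌈r⌉ + K : ℤ) : ℝ) := by exact_mod_cast hv4
    push_cast at h2
    linarith
  have hlow : (M : ℝ) + 1 ≤ (x : ℝ) ^ a + β * (y : ℝ) ^ b := by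
    have h1 : β * r ^ b ≤ β * (y : ℝ) ^ b := by gcongr
    rw [hrb, hQβ] at h1
    linarith
  have hup : (x : ℝ) ^ a + β * (y : ℝ) ^ b ≤
      M + (M : ℝ) ^ ((1 - 1 / (a : ℝ)) * (1 - 1 / (b : ℝ)) + ε) := by
    have h1 : (y : ℝ) ^ b ≤ (r + (K + 1)) ^ b := by gcongr
    have h2 : β * (y : ℝ) ^ b ≤ β * (Q + b * (2 * C) ^ (b - 1) *
        (M : ℝ) ^ ((1 - 1 / (a : ℝ)) * (1 - 1 / (b : ℝ)) + η * b)) := by
      gcongr; linarith
    rw [mul_add, hQβ] at h2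
    have h3 : (M : ℝ) ^ ((1 - 1 / (a : ℝ)) * (1 - 1 / (b : ℝ)) + η * b) ≤
        (M : ℝ) ^ ((1 - 1 / (a : ℝ)) * (1 - 1 / (b : ℝ)) + ε / 2) :=
      Real.rpow_le_rpow_of_exponent_le hM1 (by linarith)
    have h4 : (1 : ℝ) ≤ (M : ℝ) ^ ((1 - 1 / (a : ℝ)) * (1 - 1 / (b : ℝ)) + ε / 2) :=
      Real.one_le_rpow hM1 (by positivity)
    have h5 : (M : ℝ) ^ ((1 - 1 / (a : ℝ)) * (1 - 1 / (b : ℝ)) + ε) =
        (M : ℝ) ^ (ε / 2) * (M : ℝ) ^ ((1 - 1 / (a : ℝ)) * (1 - 1 / (b : ℝ)) + ε / 2) := by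
      rw [← Real.rpow_add hM0]; congr 1; ring
    rw [h5]
    obtain ⟨G, hG⟩ : ∃ G : ℝ, G = (M : ℝ) ^ ((1 - 1 / (a : ℝ)) * (1 - 1 / (b : ℝ)) + ε / 2) := ⟨_, rfl⟩
    rw [← hG] at h3 h4 ⊢
    have h6 : (β : ℝ) * (b * (2 * C) ^ (b - 1) *
        (M : ℝ) ^ ((1 - 1 / (a : ℝ)) * (1 - 1 / (b : ℝ)) + η * b)) ≤ β * (b * (2 * C) ^ (b - 1) * G) := by
      gcongr
    have h7 : (1 + β * (b * (2 * C) ^ (b - 1))) * G ≤ (M : ℝ) ^ (ε / 2) * G := by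
      gcongr
    nlinarith
  refine ⟨x, y, hx1, hy1, ?_, ?_, ?_⟩
  · have h1 : (M : ℝ) < ((x ^ a + β * y ^ b : ℕ) : ℝ) := by push_cast; linarith
    exact_mod_cast h1
  · push_cast
    exact hup
  · intro m hm
    have hWl : Real.log W = η / 4 * Real.log M := by rw [hWd, Real.log_rpow hM0]
    have hlZ1 : η / 8 * Real.log M ≤ Real.log Z := by
      have h1 : W ≤ (Z : ℝ) ^ 2 := by nlinarith
      have h2 := Real.log_le_log hW0 h1
      rw [Real.log_pow, hWl] at h2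
      push_cast at h2
      linarith
    have hlZ2 : Real.log Z ≤ Real.log M := Real.log_le_log (by linarith) (by linarith)
    obtain ⟨f1, f2⟩ := hR (Real.log M) b3 (Real.log Z) hlZ1 hlZ2
    have hff : ff Z = F (Real.log Z) := rfl
    have hκF : κ * F (Real.log M) ≤ c * ff Z := by
      rw [hff]
      calc κ * F (Real.log M) ≤ c * (η / 8 / 8) * F (Real.log M) := by gcongr
        _ = c * (η / 8 / 8 * F (Real.log M)) := by ring
        _ ≤ c * F (Real.log Z) := by gcongr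
    have hκM : κ * F (Real.log M) ≤ M / 4 := by
      calc κ * F (Real.log M) ≤ 1 * F (Real.log M) := by gcongr
        _ = F (Real.log M) := one_mul _
        _ ≤ (Real.log M) ^ 4 := b4
        _ ≤ M / 4 := b5
    obtain ⟨p, hp1, hp2, hp3⟩ := hkill () ((m : ℤ) - (x ^ a + β * y ^ b : ℕ)) (by
      refine le_trans ?_ hκF
      push_cast at hm ⊢
      exact hm)
    have hpm : p ∣ m := by
      have h1 : (v 0 ^ a + (β : ℤ) * v 1 ^ b) + ((m : ℤ) - (x ^ a + β * y ^ b : ℕ)) = (m : ℤ) := by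
        rw [hx, hy]; push_cast; ring
      rw [h1] at hp3
      exact_mod_cast hp3
    have hpW : (p : ℝ) ≤ W := by
      calc (p : ℝ) ≤ (Z : ℝ) ^ (1 / 10 : ℝ) := hp2
        _ ≤ (Z : ℝ) ^ (1 : ℝ) := Real.rpow_le_rpow_of_exponent_le (by linarith) (by norm_num)
        _ = Z := Real.rpow_one _
        _ ≤ W := hZW
    refine ⟨fun hmp => ?_, p, hp1, ?_, hpm⟩
    · have h1 : p = m := (Nat.prime_dvd_prime_iff_eq hp1 hmp).1 hpm
      rw [h1] at hpW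
      have h2 := (abs_le.1 hm).1
      push_cast at h2
      linarith
    · refine hpW.trans ?_
      rw [hWd]
      exact Real.rpow_le_rpow_of_exponent_le hM1 (by linarith)

end Pool.Agent.helper825_SB
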