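import Pool.Agent.helper825_SB.Cov
import Pool.Agent.Y837.SV.Fin1

set_option autoImplicit false
set_option linter.unusedSectionVars false
set_option linter.unusedVariables false

/-! # Composite neighbourhoods of record length around the values of several functions of several
variables at one point of an equidistributed set (after `Pool.Agent.Y837.SV.Gen` of helper837) -/

namespace Pool.Agent.helper825_SB

open Finset Filter
open Pool.Agent.Y837.SV hiding count_event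
open Pool.Agent.H256R2.SC (ff crt_int)
open Pool.Agent.H256R2.SC.LG (ana)
open Pool.Agent.H378R2.QG (cl w0 survivors ev_pow ev_more inj_of_small)

open scoped Classical

theorem gen0S {ι : Type} [Fintype ι] (d : ℕ) (φ : ι → ∀ p : ℕ, (Fin d → ZMod p) → ZMod p)
    (f : ι → (Fin d → ℤ) → ℤ) (hf : ∀ j (p : ℕ) x, ((f j x : ℤ) : ZMod p) = φ j p (red d p x))
    (u0 u1 : Fin d → ℤ) (hu0 : ∀ j, f j u0 = 0) (hu1 : ∀ j, |f j u1| = 1) (C δ : ℝ) (hC : 0 ≤ C)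
    (hδ : 0 < δ) (hδ2 : δ ≤ 1 / 2)
    (hU : ∀ p : ℕ, p.Prime → ∀ j, ∀ r : ZMod p, r ≠ 0 →
      |(p : ℝ) * (Nat.card {x : Fin d → ZMod p // φ j p x = r} : ℝ) - (p : ℝ) ^ d| ≤
        C * (p : ℝ) ^ d * (p : ℝ) ^ (-δ))
    (hP : ∀ p : ℕ, p.Prime → ∀ i j, i ≠ j → ∀ r s : ZMod p, r ≠ 0 → s ≠ 0 →
      (p : ℝ) ^ 2 * (Nat.card {x : Fin d → ZMod p // φ i p x = r ∧ φ j p x = s} : ℝ) ≤
        C * (p : ℝ) ^ d) :
    ∃ c : ℝ, 0 < c ∧ ∃ Z₀ : ℝ, ∀ Z : ℕ, Z₀ ≤ Z → ∀ (𝒮 : Finset (Fin d → ℤ)) (N₀ : ℝ), Equi d Z 𝒮 N₀ →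
      ∃ x ∈ 𝒮, ∀ j, ∀ h : ℤ, |(h : ℝ)| ≤ c * ff Z →
        ∃ p : ℕ, p.Prime ∧ (p : ℝ) ≤ (Z : ℝ) ^ (1 / 10 : ℝ) ∧ (p : ℤ) ∣ f j x + h := by
  obtain ⟨c₀, hc₀, X₁, hcov⟩ := mcovS d (2 * C) δ (by positivity) hδ
  obtain ⟨Cs, hCs, y₀, hsur⟩ := survivors
  obtain ⟨y₁, hw⟩ := ev_w0
  obtain ⟨c₁, hc₁def⟩ : ∃ c₁ : ℝ, c₁ = min c₀ 1 / ((Fintype.card ι : ℝ) + 1) := ⟨_, rfl⟩
  have hm0 : 0 < min c₀ 1 := lt_min hc₀ one_pos
  have hι0 : (0 : ℝ) < (Fintype.card ι : ℝ) + 1 := by positivity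
  have hc₁ : 0 < c₁ := by rw [hc₁def]; positivity
  obtain ⟨c, hc, X₂, hana⟩ := ana (y₀ := max y₀ (max y₁ 10)) hc₁ hCs
  obtain ⟨X₃, hev⟩ := ev_pow
  obtain ⟨L₁, hmore⟩ := ev_more 1 one_pos
  refine ⟨c, hc, max (max (max X₁ X₂) X₃) (Real.exp L₁), fun Z hZ' 𝒮 N₀ hEq => ?_⟩
  obtain ⟨hZ1, hZ4⟩ := max_le_iff.1 hZ'
  obtain ⟨hZ2, hZ3⟩ := max_le_iff.1 hZ1
  obtain ⟨hZa, hZb⟩ := max_le_iff.1 hZ2
  obtain ⟨R, hR⟩ : ∃ R : ℕ, R = ⌊c * ff Z⌋₊ := ⟨_, rfl⟩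
  obtain ⟨L, hL⟩ : ∃ L : ℝ, L = Real.log Z := ⟨_, rfl⟩
  obtain ⟨y, hy⟩ : ∃ y : ℝ, y = Real.log Z / 10 := ⟨_, rfl⟩
  obtain ⟨a1, a2, a3, a4, a5, a6, a7, a8, a9, a10, a11, a12, a13, a14, a15, a16, a17⟩ :=
    hana Z hZb y _ hy rfl R hR
  obtain ⟨b1, b2, b3, b4⟩ := hev Z hZ3
  obtain ⟨a3a, a3b⟩ := max_le_iff.1 a3
  obtain ⟨a3b, a3c⟩ := max_le_iff.1 a3b
  have hs := hsur y a3a R a5 a7
  rw [← hL] at b1 b3
  have hZ0 : (0 : ℝ) < Z := by linarith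
  have hLL : L₁ ≤ L := by
    rw [hL, ← Real.log_exp L₁]
    exact Real.log_le_log (Real.exp_pos _) hZ4
  obtain ⟨-, -, k3⟩ := hmore L hLL
  -- the small primes
  obtain ⟨P, hP'⟩ : ∃ P : ℕ, P = primorial ⌊y⌋₊ := ⟨_, rfl⟩
  have hP0 : 0 < P := by rw [hP']; exact primorial_pos _
  have hPdvd : ∀ p : ℕ, p.Prime → (p : ℝ) ≤ y → (p : ℤ) ∣ (P : ℤ) := by
    intro p hp hpy
    have hpy' : p ≤ ⌊y⌋₊ := Nat.le_floor hpy
    rw [hP', primorial]
    have : p ∈ (Finset.range (⌊y⌋₊ + 1)).filter Nat.Prime := by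
      rw [Finset.mem_filter, Finset.mem_range]
      exact ⟨by omega, hp⟩
    exact_mod_cast Finset.dvd_prod_of_mem _ this
  obtain ⟨uc, huc⟩ : ∃ uc : ℕ → Fin d → ℤ, uc = fun (p : ℕ) => if (p : ℝ) ≤ w0 y then u1 else u0 := ⟨_, rfl⟩
  have hcrt : ∀ i : Fin d, ∃ r : ℤ, ∀ p ∈ (Finset.range (⌊y⌋₊ + 1)).filter Nat.Prime,
      ((p : ℕ) : ℤ) ∣ r - uc p i := by
    intro i
    refine crt_int ((Finset.range (⌊y⌋₊ + 1)).filter Nat.Prime) (fun p : ℕ => (p : ℤ)) ?_ (fun p => uc p i)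
    intro p hp q hq hpq
    exact Nat.isCoprime_iff_coprime.2
      ((Nat.coprime_primes (mem_filter.1 hp).2 (mem_filter.1 hq).2).2 hpq)
  choose b0 hb0 using hcrt
  -- the survivors
  obtain ⟨S₀, hS₀⟩ : ∃ S₀ : Finset ℤ, S₀ = (Finset.Icc (-(R : ℤ)) R).filter (fun h => h ≠ 0 ∧
      ∀ p : ℕ, p.Prime → (p : ℝ) ≤ y → ¬ ((p : ℤ) ∣ (cl y p : ℤ) ^ 2 + h)) := ⟨_, rfl⟩
  have hS₀card : (S₀.card : ℝ) ≤ c₁ * Real.log Z := by
    refine le_trans ?_ (hs.trans a8)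
    rw [hS₀]
  have hS₀b : ∀ h ∈ S₀, h ≠ 0 ∧ |(h : ℝ)| ≤ L ^ (11 / 10 : ℝ) := by
    intro h hh
    rw [hS₀, Finset.mem_filter, Finset.mem_Icc] at hh
    refine ⟨hh.2.1, ?_⟩
    have h1 : |h| ≤ (R : ℤ) := abs_le.mpr hh.1
    have h2 : |(h : ℝ)| ≤ (R : ℝ) := by exact_mod_cast h1
    refine h2.trans (a7.trans ?_)
    rw [hy, hL]
    exact b2
  obtain ⟨ε, hε⟩ : ∃ ε : ι → ℤ, ε = fun j => f j u1 := ⟨_, rfl⟩
  have hεc : ∀ j, ε j = 1 ∨ ε j = -1 := by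
    intro j
    rw [hε]
    have := hu1 j
    rcases abs_eq (show (0 : ℤ) ≤ 1 by norm_num) |>.1 this with h | h
    · exact Or.inl h
    · exact Or.inr h
  have hεε : ∀ j, ε j * ε j = 1 := by
    intro j
    rcases hεc j with h | h <;> rw [h] <;> norm_num
  obtain ⟨T, hT⟩ : ∃ T : Finset (ι × ℤ), T = univ.biUnion (fun j => S₀.image (fun h => (j, ε j * h))) :=
    ⟨_, rfl⟩
  have hTmem : ∀ k : ι × ℤ, k ∈ T ↔ ε k.1 * k.2 ∈ S₀ := by
    intro k
    rw [hT, mem_biUnion]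
    constructor
    · rintro ⟨j, -, hj⟩
      rw [mem_image] at hj
      obtain ⟨h, hh, rfl⟩ := hj
      simp only
      rw [← mul_assoc, hεε, one_mul]
      exact hh
    · intro h
      refine ⟨k.1, mem_univ _, mem_image.2 ⟨ε k.1 * k.2, h, ?_⟩⟩
      rw [← mul_assoc, hεε, one_mul]
  have hTb : ∀ k ∈ T, k.2 ≠ 0 ∧ |(k.2 : ℝ)| ≤ L ^ (11 / 10 : ℝ) := by
    intro k hk
    obtain ⟨h1, h2⟩ := hS₀b _ ((hTmem k).1 hk)
    constructor
    · intro h0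
      apply h1
      rw [h0, mul_zero]
    · have h3 : |((ε k.1 * k.2 : ℤ) : ℝ)| = |(k.2 : ℝ)| := by
        rcases hεc k.1 with h | h <;> rw [h] <;> simp
      rw [h3] at h2
      exact h2
  have hTcard : (T.card : ℝ) ≤ min c₀ 1 * Real.log Z := by
    have h1 : T.card ≤ Fintype.card ι * S₀.card := by
      rw [hT]
      refine card_biUnion_le.trans ?_
      refine (Finset.sum_le_sum fun j _ => card_image_le).trans ?_
      rw [Finset.sum_const, card_univ, smul_eq_mul]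
    have h2 : (T.card : ℝ) ≤ Fintype.card ι * S₀.card := by exact_mod_cast h1
    calc (T.card : ℝ) ≤ Fintype.card ι * S₀.card := h2
      _ ≤ Fintype.card ι * (c₁ * Real.log Z) := mul_le_mul_of_nonneg_left hS₀card (Nat.cast_nonneg _)
      _ ≤ ((Fintype.card ι : ℝ) + 1) * (c₁ * Real.log Z) := by
          apply mul_le_mul_of_nonneg_right (by linarith)
          have : 0 ≤ Real.log Z := a2
          positivity
      _ = min c₀ 1 * Real.log Z := by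
          rw [hc₁def]
          field_simp
  have hTL : (T.card : ℝ) ≤ L := by
    refine hTcard.trans ?_
    rw [← hL]
    calc min c₀ 1 * L ≤ 1 * L := mul_le_mul_of_nonneg_right (min_le_right _ _) (by linarith)
      _ = L := one_mul L
  have hL110 : 0 ≤ L ^ (11 / 10 : ℝ) := Real.rpow_nonneg (by linarith) _
  obtain ⟨x, hx1, hx2, hx3⟩ := hcov Z hZa {k // k ∈ T} (by
      rw [Fintype.card_coe]
      refine hTcard.trans ?_
      exact mul_le_mul_of_nonneg_right (min_le_left _ _) a2)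
    (fun p => colF φ T p)
    (by
      intro p hp hp1 hp2 k
      rw [← hL] at hp1
      refine dens_bound φ C δ hC hδ2 p hp (hU p hp) (hP p hp) T ?_ ?_ ?_ k
      · intro k hk hd
        obtain ⟨h1, h2⟩ := hTb k hk
        apply inj_of_small (sh₂ := 0) k3 h2 (by simpa using hL110) h1 hp1
        rwa [sub_zero]
      · intro k hk k' hk' hkk hne
        refine inj_of_small k3 (hTb k hk).2 (hTb k' hk').2 (fun h => hne (Prod.ext hkk h)) hp1
      · have : (T.card : ℝ) ^ 2 ≤ L ^ 2 := pow_le_pow_left₀ (Nat.cast_nonneg _) hTL 2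
        linarith)
    P hP0 (by rw [hP']; exact a11)
    (by
      intro p hp hpP
      rw [hP', primorial, Prime.dvd_finsetProd_iff hp.prime] at hpP
      obtain ⟨p', hp', hpp'⟩ := hpP
      rw [Finset.mem_filter, Finset.mem_range] at hp'
      have h4 : p = p' := (Nat.prime_dvd_prime_iff_eq hp hp'.2).1 hpp'
      have h5 : (p : ℝ) ≤ y := by
        have : p ≤ ⌊y⌋₊ := by omega
        calc (p : ℝ) ≤ (⌊y⌋₊ : ℝ) := by exact_mod_cast this
          _ ≤ y := Nat.floor_le a4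
      linarith)
    𝒮 N₀ hEq b0
  refine ⟨x, hx1, fun j h hh => ?_⟩
  have hyZ : y ≤ (Z : ℝ) ^ (1 / 10 : ℝ) := by
    have h1 := Real.log_le_rpow_div hZ0.le (show (0 : ℝ) < 1 / 10 by norm_num)
    rw [hy]
    linarith
  have hhR : |h| ≤ (R : ℤ) := by
    have h1 : (h.natAbs : ℝ) ≤ c * ff Z := by
      rw [Nat.cast_natAbs]
      push_cast
      exact hh
    have h2 : h.natAbs ≤ R := by rw [hR]; exact Nat.le_floor h1
    rw [Int.abs_eq_natAbs]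
    exact_mod_cast h2
  -- the value modulo a small prime
  have hval : ∀ p : ℕ, p.Prime → (p : ℝ) ≤ y → (p : ℤ) ∣ f j x - f j (uc p) := by
    intro p hp hpy
    have h1 : red d p x = red d p (uc p) := by
      funext i
      have h2 : (p : ℤ) ∣ x i - b0 i := (hPdvd p hp hpy).trans (hx2 i)
      have h3 : (p : ℤ) ∣ b0 i - uc p i := hb0 i p (by
        have hpy' : p ≤ ⌊y⌋₊ := Nat.le_floor hpy
        rw [Finset.mem_filter, Finset.mem_range]
        exact ⟨by omega, hp⟩)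
      have h4 : (p : ℤ) ∣ x i - uc p i := by
        have := dvd_add h2 h3
        have e : x i - b0 i + (b0 i - uc p i) = x i - uc p i := by ring
        rwa [e] at this
      have h5 := (ZMod.intCast_zmod_eq_zero_iff_dvd _ p).2 h4
      push_cast at h5
      exact sub_eq_zero.1 h5
    rw [← ZMod.intCast_zmod_eq_zero_iff_dvd]
    push_cast
    rw [hf, hf, h1, sub_self]
  have huc1 : ∀ p : ℕ, (p : ℝ) ≤ w0 y → f j (uc p) = ε j := by
    intro p hp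
    rw [huc, hε]
    simp only [if_pos hp]
  have huc0 : ∀ p : ℕ, ¬ (p : ℝ) ≤ w0 y → f j (uc p) = 0 := by
    intro p hp
    rw [huc]
    simp only [if_neg hp]
    exact hu0 j
  have hfuc : ∀ p : ℕ, f j (uc p) = ε j * (cl y p : ℤ) ^ 2 := by
    intro p
    unfold cl
    by_cases hpw : (p : ℝ) ≤ w0 y
    · rw [huc1 p hpw, if_pos hpw]
      norm_num
    · rw [huc0 p hpw, if_neg hpw]
      norm_num
  by_cases h0 : h = 0
  · -- a medium prime
    obtain ⟨p, hp, hp1, hp2⟩ := exists_medium a3c (hw y a3b)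
    refine ⟨p, hp, hp2.trans hyZ, ?_⟩
    have h1 := hval p hp hp2
    rw [huc0 p (not_le.2 hp1), sub_zero] at h1
    rw [h0, add_zero]
    exact h1
  by_cases hsm : ∀ p : ℕ, p.Prime → (p : ℝ) ≤ y → ¬ ((p : ℤ) ∣ (cl y p : ℤ) ^ 2 + ε j * h)
  · have hmem : ((j, h) : ι × ℤ) ∈ T := by
      rw [hTmem, hS₀, Finset.mem_filter, Finset.mem_Icc]
      refine ⟨?_, ?_, hsm⟩
      · have h1 : |ε j * h| ≤ (R : ℤ) := by
          rw [abs_mul]
          rcases hεc j with h2 | h2 <;> rw [h2] <;> simpa using hhR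
        exact abs_le.1 h1
      · intro h1
        rcases mul_eq_zero.1 h1 with h2 | h2
        · rcases hεc j with h3 | h3 <;> rw [h3] at h2 <;> norm_num at h2
        · exact h0 h2
    obtain ⟨p, hp1, hp2, hp3, hp4⟩ := hx3 ⟨(j, h), hmem⟩
    refine ⟨p, hp1, hp3, ?_⟩
    have h1 := colF_kill hp4
    unfold kill at h1
    simp only at h1
    rw [← ZMod.intCast_zmod_eq_zero_iff_dvd]
    push_cast
    rw [hf]
    exact h1
  · push Not at hsm
    obtain ⟨p, hp1, hp2, hp3⟩ := hsm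
    refine ⟨p, hp1, hp2.trans hyZ, ?_⟩
    have h1 := hval p hp1 hp2
    rw [hfuc] at h1
    have h2 : (p : ℤ) ∣ ε j * ((cl y p : ℤ) ^ 2 + ε j * h) := Dvd.dvd.mul_left hp3 _
    have h3 := dvd_add h1 h2
    have e : f j x - ε j * (cl y p : ℤ) ^ 2 + ε j * ((cl y p : ℤ) ^ 2 + ε j * h) =
        f j x + (ε j * ε j) * h := by ring
    rw [e, hεε, one_mul] at h3
    exact h3

end Pool.Agent.helper825_SB
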