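import Pool.Agent.helper825_SB.Gen

set_option autoImplicit false
set_option linter.unusedSectionVars false
set_option linter.unusedVariables false

/-! # Record neighbourhoods around `x ^ a + β y ^ b` at one point of an equidistributed set
(after `Pool.Agent.Y837.SV.Pow2` of helper837) -/

namespace Pool.Agent.helper825_SB

open Finset Filter
open Pool.Agent.Y837.SV hiding count_event
open Pool.Agent.H256R2.SC (ff)

open scoped Classical

theorem pow_mainS {ι : Type} [Fintype ι] (a b : ι → ℕ) (β : ι → ℤ) (ha : ∀ j, 0 < a j) (hb : ∀ j, 0 < b j)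
    (hβ : ∀ j, β j ≠ 0) (hinj : Function.Injective (fun j => (a j, b j, β j))) :
    ∃ c : ℝ, 0 < c ∧ ∃ Z₀ : ℝ, ∀ Z : ℕ, Z₀ ≤ Z → ∀ (𝒮 : Finset (Fin 2 → ℤ)) (N₀ : ℝ), Equi 2 Z 𝒮 N₀ →
      ∃ x ∈ 𝒮, ∀ j, ∀ h : ℤ, |(h : ℝ)| ≤ c * ff Z →
        ∃ p : ℕ, p.Prime ∧ (p : ℝ) ≤ (Z : ℝ) ^ (1 / 10 : ℝ) ∧
          (p : ℤ) ∣ (x 0 ^ a j + β j * x 1 ^ b j) + h := by
  obtain ⟨B, hB⟩ : ∃ B : ℕ, B = ∑ j : ι, (a j + b j + (β j).natAbs) := ⟨_, rfl⟩
  have hBj : ∀ j, a j + b j + (β j).natAbs ≤ B := by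
    intro j
    rw [hB]
    exact Finset.single_le_sum (f := fun j => a j + b j + (β j).natAbs) (fun _ _ => Nat.zero_le _)
      (mem_univ j)
  obtain ⟨K, hK⟩ : ∃ K : ℝ, K = 3 * (B : ℝ) ^ 3 + 4 * (B : ℝ) ^ 2 := ⟨_, rfl⟩
  have hK0 : 0 ≤ K := by rw [hK]; positivity
  have hcast : ∀ (p : ℕ), p.Prime → ∀ m : ℤ, m ≠ 0 → m.natAbs < p → (m : ZMod p) ≠ 0 := by
    intro p hp m hm hmp h
    have h1 := (ZMod.intCast_zmod_eq_zero_iff_dvd m p).1 h
    have h2 := Int.natAbs_dvd_natAbs.2 h1
    rw [Int.natAbs_natCast] at h2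
    have := Nat.le_of_dvd (Int.natAbs_pos.2 hm) h2
    omega
  refine gen0S 2 (fun j p x => x 0 ^ a j + (β j : ZMod p) * x 1 ^ b j)
    (fun j x => x 0 ^ a j + β j * x 1 ^ b j) ?_ 0 ![1, 0] ?_ ?_
    K (1 / 2) hK0 (by norm_num) le_rfl ?_ ?_
  · intro j p x
    push_cast
    rfl
  · intro j
    simp [(ha j).ne', (hb j).ne']
  · intro j
    simp [(hb j).ne']
  · intro p hp j r hr
    have : Fact p.Prime := ⟨hp⟩
    have hp0 : (0 : ℝ) < p := by exact_mod_cast hp.pos
    have hp1 : (1 : ℝ) ≤ p := by exact_mod_cast hp.one_lt.le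
    have hNN : Nat.card {x : Fin 2 → ZMod p // x 0 ^ a j + (β j : ZMod p) * x 1 ^ b j = r} =
        NN p (a j) (b j) (β j : ZMod p) r := by
      rw [natCard_two p (fun u v => u ^ a j + (β j : ZMod p) * v ^ b j = r)]
      unfold NN
      congr!
    rw [hNN]
    have hj := hBj j
    have hB1 : (a j : ℝ) ≤ B := by
      have : a j ≤ B := by omega
      exact_mod_cast this
    have hB2 : (b j : ℝ) ≤ B := by
      have : b j ≤ B := by omega
      exact_mod_cast this
    have hsq : (p : ℝ) ^ 2 * (p : ℝ) ^ (-(1 / 2) : ℝ) = p * Real.sqrt p := by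
      rw [Real.sqrt_eq_rpow, ← Real.rpow_natCast, ← Real.rpow_add hp0]
      have : (p : ℝ) * (p : ℝ) ^ (1 / 2 : ℝ) = (p : ℝ) ^ (1 + 1 / 2 : ℝ) := by
        rw [Real.rpow_add hp0, Real.rpow_one]
      rw [this]
      congr 1
      norm_num
    rw [mul_assoc, hsq]
    by_cases hpB : B < p
    · have hβp : (β j : ZMod p) ≠ 0 := hcast p hp _ (hβ j) (by omega)
      have h1 := NN_bound (p := p) (a j) (b j) (ha j) (hb j) _ hβp r hr
      have h2 : |(NN p (a j) (b j) (β j : ZMod p) r : ℝ) - p| ≤ 3 * (B : ℝ) ^ 3 * Real.sqrt p := by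
        apply abs_le_of_sq_le_sq _ (by positivity)
        refine h1.trans ?_
        rw [mul_pow, Real.sq_sqrt hp0.le]
        apply mul_le_mul_of_nonneg_right _ hp0.le
        have e1 : (a j : ℝ) ^ 3 * (b j : ℝ) ^ 3 ≤ (B : ℝ) ^ 3 * (B : ℝ) ^ 3 :=
          mul_le_mul (pow_le_pow_left₀ (Nat.cast_nonneg _) hB1 3)
            (pow_le_pow_left₀ (Nat.cast_nonneg _) hB2 3) (by positivity) (by positivity)
        nlinarith [e1, show (0 : ℝ) ≤ (B : ℝ) ^ 3 * (B : ℝ) ^ 3 by positivity]
      have h3 : (p : ℝ) * (NN p (a j) (b j) (β j : ZMod p) r : ℝ) - (p : ℝ) ^ 2 =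
          p * ((NN p (a j) (b j) (β j : ZMod p) r : ℝ) - p) := by ring
      rw [h3, abs_mul, abs_of_pos hp0]
      calc (p : ℝ) * |(NN p (a j) (b j) (β j : ZMod p) r : ℝ) - p| ≤ p * (3 * (B : ℝ) ^ 3 * Real.sqrt p) :=
            mul_le_mul_of_nonneg_left h2 hp0.le
        _ = 3 * (B : ℝ) ^ 3 * (p * Real.sqrt p) := by ring
        _ ≤ K * (p * Real.sqrt p) := by
            apply mul_le_mul_of_nonneg_right _ (by positivity)
            rw [hK]
            have : (0 : ℝ) ≤ 4 * (B : ℝ) ^ 2 := by positivity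
            linarith
    · push Not at hpB
      have hpB' : (p : ℝ) ≤ B := by exact_mod_cast hpB
      have h1 : (NN p (a j) (b j) (β j : ZMod p) r : ℝ) ≤ (p : ℝ) ^ 2 := by
        have h2 : NN p (a j) (b j) (β j : ZMod p) r ≤ p ^ 2 := by
          unfold NN
          refine (card_le_univ _).trans ?_
          rw [Fintype.card_prod, ZMod.card, pow_two]
        exact_mod_cast h2
      have h0 : (0 : ℝ) ≤ (NN p (a j) (b j) (β j : ZMod p) r : ℝ) := Nat.cast_nonneg _
      have h3 : |(p : ℝ) * (NN p (a j) (b j) (β j : ZMod p) r : ℝ) - (p : ℝ) ^ 2| ≤ (p : ℝ) ^ 3 := by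
        rw [abs_le]
        constructor
        · have e1 : (p : ℝ) ^ 2 ≤ (p : ℝ) ^ 3 := pow_le_pow_right₀ hp1 (by norm_num)
          have e2 : 0 ≤ (p : ℝ) * (NN p (a j) (b j) (β j : ZMod p) r : ℝ) := by positivity
          linarith
        · have e1 : (p : ℝ) * (NN p (a j) (b j) (β j : ZMod p) r : ℝ) ≤ p * (p : ℝ) ^ 2 :=
            mul_le_mul_of_nonneg_left h1 hp0.le
          have e2 : (p : ℝ) * (p : ℝ) ^ 2 = (p : ℝ) ^ 3 := by ring
          have e3 : (0 : ℝ) ≤ (p : ℝ) ^ 2 := by positivity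
          linarith
      refine h3.trans ?_
      have h4 : (1 : ℝ) ≤ Real.sqrt p := by
        rw [Real.one_le_sqrt]; exact hp1
      calc (p : ℝ) ^ 3 = (p : ℝ) ^ 2 * (p * 1) := by ring
        _ ≤ (B : ℝ) ^ 2 * (p * Real.sqrt p) := by
            apply mul_le_mul (pow_le_pow_left₀ hp0.le hpB' 2) _ (by positivity) (by positivity)
            exact mul_le_mul_of_nonneg_left h4 hp0.le
        _ ≤ K * (p * Real.sqrt p) := by
            apply mul_le_mul_of_nonneg_right _ (by positivity)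
            rw [hK]
            have e1 : (0 : ℝ) ≤ 3 * (B : ℝ) ^ 3 := by positivity
            have e2 : (0 : ℝ) ≤ (B : ℝ) ^ 2 := by positivity
            linarith
  · intro p hp i j hij r s hr hs
    have : Fact p.Prime := ⟨hp⟩
    have hp0 : (0 : ℝ) < p := by exact_mod_cast hp.pos
    have hNN : Nat.card {x : Fin 2 → ZMod p // x 0 ^ a i + (β i : ZMod p) * x 1 ^ b i = r ∧
        x 0 ^ a j + (β j : ZMod p) * x 1 ^ b j = s} =
        (univ.filter (fun z : ZMod p × ZMod p => 1 * z.1 ^ a i + (β i : ZMod p) * z.2 ^ b i = r ∧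
          1 * z.1 ^ a j + (β j : ZMod p) * z.2 ^ b j = s)).card := by
      rw [natCard_two p (fun u v => u ^ a i + (β i : ZMod p) * v ^ b i = r ∧
        u ^ a j + (β j : ZMod p) * v ^ b j = s)]
      simp only [one_mul]
      congr!
    rw [hNN, mul_comm]
    apply mul_le_mul_of_nonneg_right _ (by positivity)
    have hi := hBj i
    have hj := hBj j
    have hai := ha i
    have haj := ha j
    have hbi := hb i
    have hbj := hb j
    by_cases hpB : 2 * B < p
    · have hβi : (β i : ZMod p) ≠ 0 := hcast p hp _ (hβ i) (by omega)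
      have hβj : (β j : ZMod p) ≠ 0 := hcast p hp _ (hβ j) (by omega)
      have hn : ∀ n : ℕ, 0 < n → n ≤ B → (n : ZMod p) ≠ 0 := by
        intro n hn1 hn2
        have := hcast p hp (n : ℤ) (by exact_mod_cast hn1.ne') (by rw [Int.natAbs_natCast]; omega)
        push_cast at this
        exact this
      have hai' : a i ≤ B := by omega
      have haj' : a j ≤ B := by omega
      have hbi' : b i ≤ B := by omega
      have hbj' : b j ≤ B := by omega
      have hmul : ∀ u v w t q : ℕ, u ≤ B → v ≤ B → w ≤ B → t ≤ B → q ≤ B →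
          u * (v * w + t * q) ≤ 2 * B ^ 3 := by
        intro u v w t q hu hv hw ht hq
        calc u * (v * w + t * q) ≤ B * (B * B + B * B) :=
              Nat.mul_le_mul hu (Nat.add_le_add (Nat.mul_le_mul hv hw) (Nat.mul_le_mul ht hq))
          _ = 2 * B ^ 3 := by ring
      have hfinal : (univ.filter (fun z : ZMod p × ZMod p => 1 * z.1 ^ a i + (β i : ZMod p) * z.2 ^ b i = r ∧
          1 * z.1 ^ a j + (β j : ZMod p) * z.2 ^ b j = s)).card ≤ 2 * B ^ 3 := by
        by_cases haa : a i = a j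
        · by_cases hbb : b i = b j
          · have hββ : (β i : ZMod p) ≠ (β j : ZMod p) := by
              intro h
              have h1 : β i ≠ β j := by
                intro h2
                apply hij
                apply hinj
                simp only [haa, hbb, h2]
              have h3 := hcast p hp (β i - β j) (sub_ne_zero.2 h1) (by
                have := Int.natAbs_sub_le (β i) (β j)
                omega)
              apply h3
              push_cast
              rw [h, sub_self]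
            rw [← haa, ← hbb]
            refine (pair_same (a i) (b i) hai hbi _ _ r s hββ).trans ?_
            have h1 : 1 ≤ B := by omega
            calc a i * b i ≤ B * B := Nat.mul_le_mul hai' hbi'
              _ ≤ 2 * B ^ 3 := by nlinarith [Nat.mul_le_mul h1 (Nat.mul_le_mul (le_refl B) (le_refl B))]
          · exact (pair_y (a i) (a j) (b i) (b j) hai haj hbi hbj hbb 1 1 _ _ r s one_ne_zero one_ne_zero
              hβi hβj hr hs (hn _ hai hai') (hn _ haj haj')).trans (hmul _ _ _ _ _ hai' hbi' haj' hbj' hai')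
        · exact (pair_x (a i) (a j) (b i) (b j) hai haj haa hbi hbj 1 1 _ _ r s one_ne_zero one_ne_zero
            hβi hβj hr hs (hn _ hbi hbi') (hn _ hbj hbj')).trans (hmul _ _ _ _ _ hbi' hai' hbj' haj' hbi')
      have h1 : ((univ.filter (fun z : ZMod p × ZMod p => 1 * z.1 ^ a i + (β i : ZMod p) * z.2 ^ b i = r ∧
          1 * z.1 ^ a j + (β j : ZMod p) * z.2 ^ b j = s)).card : ℝ) ≤ 2 * (B : ℝ) ^ 3 := by
        exact_mod_cast hfinal
      refine h1.trans ?_
      rw [hK]
      have e1 : (0 : ℝ) ≤ (B : ℝ) ^ 3 := by positivity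
      have e2 : (0 : ℝ) ≤ 4 * (B : ℝ) ^ 2 := by positivity
      linarith
    · push Not at hpB
      have hpB' : (p : ℝ) ≤ 2 * B := by exact_mod_cast hpB
      have h1 : ((univ.filter (fun z : ZMod p × ZMod p => 1 * z.1 ^ a i + (β i : ZMod p) * z.2 ^ b i = r ∧
          1 * z.1 ^ a j + (β j : ZMod p) * z.2 ^ b j = s)).card : ℝ) ≤ (p : ℝ) ^ 2 := by
        have h2 : (univ.filter (fun z : ZMod p × ZMod p => 1 * z.1 ^ a i + (β i : ZMod p) * z.2 ^ b i = r ∧
            1 * z.1 ^ a j + (β j : ZMod p) * z.2 ^ b j = s)).card ≤ p ^ 2 := by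
          refine (card_le_univ _).trans ?_
          rw [Fintype.card_prod, ZMod.card, pow_two]
        exact_mod_cast h2
      refine h1.trans ?_
      rw [hK]
      have e1 : (0 : ℝ) ≤ 3 * (B : ℝ) ^ 3 := by positivity
      have e2 : (p : ℝ) ^ 2 ≤ (2 * (B : ℝ)) ^ 2 := pow_le_pow_left₀ hp0.le hpB' 2
      nlinarith

end Pool.Agent.helper825_SB
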